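import Pool.Agent.TreeFinitary.Main

/-!
# MP_76c567_pr, Q1: a 1-dependent process on the 3-regular tree that is not a finitary factor of iid

One automorphism-invariant 1-dependent process with values in the standard Borel space `ℕ → ℝ`
(countably many independent copies of a Gaussian field), which is not a finitary factor of any
i.i.d. process, whatever the standard Borel label space and the law of the labels.
-/

set_option autoImplicit false

open MeasureTheory ProbabilityTheory

namespace Pool.Agent.Results.MP_76c567_pr.NoFinitaryCoding

universe u

/-- The law `μ` of a process on the vertices of `G` is invariant under all automorphisms. -/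
def AutInvariant {V S : Type*} [MeasurableSpace S] (G : SimpleGraph V) (μ : Measure (V → S)) :
    Prop :=
  ∀ γ : G ≃g G, μ.map (fun x : V → S => fun v => x (γ v)) = μ

/-- The process is `k`-dependent: its restrictions to two vertex sets at distance more than `k`
are independent. -/
def DependentAt {V S : Type*} [MeasurableSpace S] (G : SimpleGraph V) (k : ℕ)
    (μ : Measure (V → S)) : Prop :=
  ∀ A B : Set V, (∀ a ∈ A, ∀ b ∈ B, k < G.dist a b) →
    IndepFun (fun x : V → S => fun a : A => x a) (fun x : V → S => fun b : B => x b) μ

/-- The process with law `μ` is a finitary factor of the i.i.d. process with one-vertex law `ν`: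
there is a measurable map `F` of configurations carrying the i.i.d. law to `μ`, commuting with
every automorphism almost surely, and such that almost surely every value `F y v` is determined by
the restriction of `y` to some ball around `v`. -/
def FinitaryFactor {V S L : Type*} [MeasurableSpace S] [MeasurableSpace L] (G : SimpleGraph V)
    (ν : Measure L) (μ : Measure (V → S)) : Prop :=
  ∃ F : (V → L) → (V → S), Measurable F ∧
    (Measure.infinitePi (fun _ : V => ν)).map F = μ ∧
    (∀ γ : G ≃g G, ∀ᵐ y ∂(Measure.infinitePi (fun _ : V => ν)),
      F (fun v => y (γ v)) = fun v => F y (γ v)) ∧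
    (∀ᵐ y ∂(Measure.infinitePi (fun _ : V => ν)), ∀ v : V, ∃ r : ℕ, ∀ y' : V → L,
      (∀ w : V, G.dist v w ≤ r → y' w = y w) → F y' v = F y v)

/-- **Q1 is false for degree 3.** There are a 3-regular tree `G` and an automorphism-invariant
1-dependent process on it, with values in the standard Borel space `ℕ → ℝ`, which is not a finitary
factor of any i.i.d. process (any standard Borel label space `L`, any law `ν` on it). -/
theorem result :
    ∃ (V : Type) (G : SimpleGraph V) (μ : Measure (V → ℕ → ℝ)),
      G.IsTree ∧ (∀ v : V, (G.neighborSet v).ncard = 3) ∧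
      IsProbabilityMeasure μ ∧ AutInvariant G μ ∧ DependentAt G 1 μ ∧
      ∀ (L : Type u) [MeasurableSpace L] [StandardBorelSpace L] (ν : Measure L)
        [IsProbabilityMeasure ν], ¬ FinitaryFactor G ν μ := by
  refine ⟨TreeFinitary.W, TreeFinitary.T, TreeFinitary.muF, TreeFinitary.isTree_T,
    TreeFinitary.neighborSet_ncard, inferInstance, TreeFinitary.muF_invariant,
    fun A B h => TreeFinitary.muF_indep A B h, ?_⟩
  intro L _ _ ν _ ⟨F, hF, hmap, heq, hfin⟩
  have hne : Nonempty L := by
    by_contra hc
    rw [not_nonempty_iff] at hc
    have h1 : ν Set.univ = 1 := measure_univ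
    rw [Set.univ_eq_empty_iff.2 hc, measure_empty] at h1
    exact zero_ne_one h1
  obtain ⟨g, hg, hgν⟩ := Measure.exists_measurable_map_eq ν
  have hG : Measurable (fun (y : TreeFinitary.W → unitInterval) (v : TreeFinitary.W) => g (y v)) := by
    fun_prop
  have hpush : (Measure.infinitePi (fun _ : TreeFinitary.W => (volume : Measure unitInterval))).map
      (fun (y : TreeFinitary.W → unitInterval) (v : TreeFinitary.W) => g (y v)) =
      Measure.infinitePi (fun _ : TreeFinitary.W => ν) := by
    have h := Measure.infinitePi_map_pi
      (μ := fun _ : TreeFinitary.W => (volume : Measure unitInterval))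
      (f := fun (_ : TreeFinitary.W) (t : unitInterval) => g t) (fun _ => hg)
    rw [h, hgν]
  refine TreeFinitary.no_finitary (fun y => F (fun v => g (y v))) (hF.comp hG) ?_ ?_ ?_
  · have h := Measure.map_map (μ := Measure.infinitePi
      (fun _ : TreeFinitary.W => (volume : Measure unitInterval))) hF hG
    rw [hpush, hmap] at h
    exact h.symm
  · intro γ
    have h := heq γ
    rw [← hpush] at h
    exact ae_of_ae_map hG.aemeasurable h
  · have h := hfin
    rw [← hpush] at h
    have h' := ae_of_ae_map hG.aemeasurable h
    filter_upwards [h'] with y hy v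
    obtain ⟨r, hr⟩ := hy v
    exact ⟨r, fun y' hy' => hr _ fun w hw => by rw [hy' w hw]⟩

end Pool.Agent.Results.MP_76c567_pr.NoFinitaryCoding
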